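import Mathlib
import Pool.Agent.Lib.MP_cd8289_gt.Defs
import Pool.Agent.Lib.MP_cd8289_gt.Arr
import Pool.Agent.Lib.MP_cd8289_gt.Num

set_option autoImplicit false

/-- A lower bound for the number of path components of the spaces of orthogonal representations
of the group of an arbitrary complex hyperplane arrangement.

`α 0, …, α (n-1)` are complex affine forms on `ℂ^l`, `M` is the set on which none of them
vanishes (the complement of the arrangement of the hyperplanes `α j = 0`) and `x` is a base point
of `M`. `IsNBC α S` says that `S` is a no-broken-circuit set; `OrthRep G q` is the space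
`Hom(G, O(q))` with the topology of pointwise convergence. For every `q` the space
`Hom(π₁(M, x), O(q))` has at least `∑_{i ≤ q} C(N, i)` path components, where `N` is the number
of nonempty no-broken-circuit sets (which is `2 ^ N` as soon as `q ≥ N`). -/
theorem Pool.Agent.Results.MP_cd8289_gt.HomComponents.result :
    ∀ (l n : ℕ) (α : Fin n → ((Fin l → ℂ) →ᵃ[ℂ] ℂ))
      (x : {v : Fin l → ℂ // ∀ j, α j v ≠ 0}) (q : ℕ),
      ((∑ i ∈ Finset.range (q + 1),
          (Nat.card {S : Finset (Fin n) // ArrHom.IsNBC α S ∧ S.Nonempty}).choose i : ℕ) :
            Cardinal) ≤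
        Cardinal.mk (ZerothHomotopy
          (ArrHom.OrthRep (FundamentalGroup {v : Fin l → ℂ // ∀ j, α j v ≠ 0} x) q)) := by
  intro l n α x q
  obtain ⟨c, hc⟩ := ArrHom.main_components α x q
  exact ArrHom.numeric_sum q c hc
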